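import Pool.Agent.E8helper61.DL.Main
import Pool.Agent.E8helper15.DL.Ind
import Pool.Agent.E8helper5.DL.Rnd
import Pool.Agent.E8helper61.DR.Loc
import Pool.Agent.E8helper61.DR.Main
import Pool.Agent.E8helper73.DR.Sam

/-!
# Independent sets versus transitive tournaments: exponential lower bounds

Let `k(n, m)` be the least `k` such that every directed graph with `k` vertices has an independent
set of size `n` or contains a transitive tournament of size `m`. We prove

`k(2 h + 2, m) ≥ 2 ^ (h - 2 + (m - 1) / 2 - h (h + 1) / (2 m))` for all `h, m ≥ 1`, and so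

`k(n, n) ≥ 2 ^ ((7 n - 33) / 8)` for all `n ≥ 1`.

The known lower bound `k(n, n) ≥ R(n, n)` has the growth rate `2 ^ (n / 2)`, a random directed graph
gives `3 ^ (n / 2)`, which is less than `2 ^ (7 n / 8)`.

Proof (after Conlon and Ferber's lower bound for three-colour Ramsey numbers). Map the vertices at
random to the vectors `x` of even length `2 h` over the field with two elements such that
`x · x = 0`. Vertices whose images have scalar product `1` are not joined, the others are joined by an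
arc with a random direction. Vectors with `x · x = 0` and pairwise scalar products `1` are almost
linearly independent, so the independent sets have at most `2 h + 1` elements. The `m`-tuples of
pairwise orthogonal vectors with `x · x = 0` span isotropic subspaces of dimension at most `h`; they
are counted by adding the vectors one after the other.
-/

set_option autoImplicit false

namespace Pool.Agent.Results.MP_e10cd8_co.DiagonalLowerH61

/-- `A` is a directed graph without loops. -/
def Loopless {V : Type} (A : V → V → Prop) : Prop := ∀ v, ¬ A v v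

/-- There is an independent set of `n` vertices. -/
def HasIndependent {V : Type} (A : V → V → Prop) (n : ℕ) : Prop :=
  ∃ S : Finset V, S.card = n ∧ ∀ u ∈ S, ∀ v ∈ S, ¬ A u v

/-- There are `m` different vertices `f 0, …, f (m - 1)` with an arc from `f i` to `f j` for all
`i < j`. -/
def HasTransitive {V : Type} (A : V → V → Prop) (m : ℕ) : Prop :=
  ∃ f : Fin m → V, Function.Injective f ∧ ∀ i j, i < j → A (f i) (f j)

/-- Every directed graph with `k` vertices has an independent set of size `n` or contains a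
transitive tournament of size `m`. -/
def Arrow (k n m : ℕ) : Prop :=
  ∀ A : Fin k → Fin k → Prop, Loopless A → HasIndependent A n ∨ HasTransitive A m

/-- `k(n, m)`, the least number of vertices with this property. -/
noncomputable def leastK (n m : ℕ) : ℕ := sInf {k | Arrow k n m}

theorem Arrow.mono {k n m n' m' : ℕ} (h : Arrow k n m) (hn : n' ≤ n) (hm : m' ≤ m) :
    Arrow k n' m' := by
  intro A hA
  rcases h A hA with ⟨S, hS, hi⟩ | ⟨f, hf, hf'⟩
  · obtain ⟨T, hTS, hT⟩ := Finset.exists_subset_card_eq (by omega : n' ≤ S.card)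
    exact Or.inl ⟨T, hT, fun u hu v hv => hi u (hTS hu) v (hTS hv)⟩
  · exact Or.inr ⟨fun i => f (Fin.castLE hm i), fun a b hab => Fin.castLE_injective hm (hf hab),
      fun i j hij => hf' _ _ (by simpa using hij)⟩

theorem exists_arrow (n m : ℕ) : ∃ k, Arrow k n m := by
  have hF := Pool.Agent.E8helper61.DR.forces_all Pool.Agent.E8helper61.DR.t_LOC
    Pool.Agent.E8helper61.DR.t_SAM (n := n + 2) (by omega) m
  set B : ℝ := Pool.Agent.E8helper61.DR.bd (n + 2) (m + 2) with hB
  refine ⟨⌈B⌉₊, Arrow.mono (n := n + 2) (m := m + 2) ?_ (by omega) (by omega)⟩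
  intro A hA
  rcases hF (Fin ⌈B⌉₊) A hA (by rw [Fintype.card_fin]; exact Nat.le_ceil _) with h | ⟨f, hf⟩
  · exact Or.inl h
  · refine Or.inr ⟨f, fun a b hab => ?_, hf⟩
    by_contra hne
    rcases lt_or_gt_of_ne hne with h | h
    · have := hf a b h
      rw [hab] at this
      exact hA _ this
    · have := hf b a h
      rw [hab] at this
      exact hA _ this

theorem isLeast (n m : ℕ) : IsLeast {k | Arrow k n m} (leastK n m) :=
  ⟨Nat.sInf_mem (exists_arrow n m), fun _ hk => Nat.sInf_le hk⟩

theorem leastK_mono {n m n' m' : ℕ} (hn : n' ≤ n) (hm : m' ≤ m) : leastK n' m' ≤ leastK n m :=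
  (isLeast n' m').2 (Arrow.mono (isLeast n m).1 hn hm)

theorem one_le (n m : ℕ) (hn : 1 ≤ n) (hm : 1 ≤ m) : 1 ≤ leastK n m := by
  by_contra h
  have h0 : leastK n m = 0 := by omega
  have h1 : Arrow 0 n m := by rw [← h0]; exact (isLeast n m).1
  rcases h1 (fun _ _ => False) (fun _ h => h) with ⟨S, hS, _⟩ | ⟨f, _, _⟩
  · have : S.card ≤ 0 := by
      have := S.card_le_univ
      simpa using this
    omega
  · exact (f ⟨0, by omega⟩).elim0

theorem two_parameters (h m : ℕ) (hh : 1 ≤ h) (hm : 1 ≤ m) :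
    (2 : ℝ) ^ ((h : ℝ) - 2 + ((m : ℝ) - 1) / 2 - h * (h + 1) / (2 * m))
      ≤ leastK (2 * h + 2) m := by
  by_contra hlt
  push Not at hlt
  set K : ℕ := leastK (2 * h + 2) m with hK
  have hm0 : (0 : ℝ) < m := by exact_mod_cast hm
  have h1 : (K : ℝ) ^ m < (2 : ℝ) ^ (((h : ℝ) - 2 + ((m : ℝ) - 1) / 2 - h * (h + 1) / (2 * m)) * m) := by
    rw [Real.rpow_mul_natCast (by norm_num)]
    exact pow_lt_pow_left₀ hlt (Nat.cast_nonneg _) (by omega)
  have hc1 : ((h * (h + 1) / 2 : ℕ) : ℝ) = h * (h + 1) / 2 := by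
    rw [Nat.cast_div (Nat.even_mul_succ_self h).two_dvd (by norm_num)]
    push_cast
    ring
  have hc2 : ((m * (m - 1) / 2 : ℕ) : ℝ) = m * (m - 1) / 2 := by
    rw [Nat.cast_div (Nat.even_mul_pred_self m).two_dvd (by norm_num)]
    rw [Nat.cast_mul, Nat.cast_sub hm]
    push_cast
    ring
  have h2 : ((K ^ m * 2 ^ (m + h * m + h * (h + 1) / 2) : ℕ) : ℝ)
      < (((2 ^ (2 * h - 1)) ^ m * 2 ^ (m * (m - 1) / 2) : ℕ) : ℝ) := by
    rw [← pow_mul, ← pow_add]
    push_cast
    rw [← Real.rpow_natCast 2 (m + h * m + h * (h + 1) / 2),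
      ← Real.rpow_natCast 2 ((2 * h - 1) * m + m * (m - 1) / 2)]
    calc (K : ℝ) ^ m * 2 ^ ((m + h * m + h * (h + 1) / 2 : ℕ) : ℝ)
        < (2 : ℝ) ^ (((h : ℝ) - 2 + ((m : ℝ) - 1) / 2 - h * (h + 1) / (2 * m)) * m)
          * 2 ^ ((m + h * m + h * (h + 1) / 2 : ℕ) : ℝ) :=
          mul_lt_mul_of_pos_right h1 (by positivity)
      _ = 2 ^ (((2 * h - 1) * m + m * (m - 1) / 2 : ℕ) : ℝ) := by
          rw [← Real.rpow_add (by norm_num)]
          congr 1
          rw [Nat.cast_add, Nat.cast_add, Nat.cast_add, hc1, hc2, Nat.cast_mul, Nat.cast_mul,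
            Nat.cast_sub (by omega : 1 ≤ 2 * h)]
          push_cast
          field_simp
          ring
  obtain ⟨A, hA1, hA2, hA3⟩ := Pool.Agent.E8helper61.DL.construct 
    Pool.Agent.E8helper15.DL.t_IND Pool.Agent.E8helper15.DL.t_CARD Pool.Agent.E8helper5.DL.t_RND
    h m K hh (by exact_mod_cast h2)
  rcases (isLeast (2 * h + 2) m).1 A (fun v hv => hA1 v v hv hv) with hi | ⟨f, _, hf⟩
  · exact hA2 hi
  · exact hA3 ⟨f, hf⟩

/-- Lower bounds for `k(n, m)`. The first part says that `k(n, m)` is well defined. -/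
theorem result : (∀ n m : ℕ, IsLeast {k | Arrow k n m} (leastK n m)) ∧
    (∀ h m : ℕ, 1 ≤ h → 1 ≤ m →
      (2 : ℝ) ^ ((h : ℝ) - 2 + ((m : ℝ) - 1) / 2 - h * (h + 1) / (2 * m))
        ≤ leastK (2 * h + 2) m) ∧
    ∀ n : ℕ, 1 ≤ n → (2 : ℝ) ^ ((7 * (n : ℝ) - 33) / 8) ≤ leastK n n := by
  refine ⟨isLeast, two_parameters, fun n hn => ?_⟩
  -- even numbers
  have heven : ∀ h : ℕ, 1 ≤ h → (2 : ℝ) ^ ((7 * ((2 * h + 2 : ℕ) : ℝ) - 26) / 8)
      ≤ leastK (2 * h + 2) (2 * h + 2) := by
    intro h hh
    refine le_trans ?_ (two_parameters h (2 * h + 2) hh (by omega))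
    refine Real.rpow_le_rpow_of_exponent_le (by norm_num) (le_of_eq ?_)
    push_cast
    have : (2 * (h : ℝ) + 2) ≠ 0 := by positivity
    field_simp
    ring
  rcases Nat.lt_or_ge n 4 with h4 | h4
  · have h1 : (2 : ℝ) ^ ((7 * (n : ℝ) - 33) / 8) ≤ 1 := by
      apply Real.rpow_le_one_of_one_le_of_nonpos (by norm_num)
      have : (n : ℝ) ≤ 3 := by exact_mod_cast (by omega : n ≤ 3)
      linarith
    have h2 : (1 : ℝ) ≤ leastK n n := by exact_mod_cast one_le n n hn hn
    linarith
  · rcases Nat.even_or_odd' n with ⟨c, hc | hc⟩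
    · obtain ⟨h, rfl⟩ : ∃ h, c = h + 1 := ⟨c - 1, by omega⟩
      have := heven h (by omega)
      rw [show 2 * h + 2 = n by omega] at this
      refine le_trans ?_ this
      exact Real.rpow_le_rpow_of_exponent_le (by norm_num) (by linarith)
    · obtain ⟨h, rfl⟩ : ∃ h, c = h + 1 := ⟨c - 1, by omega⟩
      have h1 := heven h (by omega)
      have h2 : (leastK (2 * h + 2) (2 * h + 2) : ℝ) ≤ leastK n n := by
        exact_mod_cast leastK_mono (by omega) (by omega)
      refine le_trans ?_ (h1.trans h2)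
      refine Real.rpow_le_rpow_of_exponent_le (by norm_num) (le_of_eq ?_)
      rw [hc]
      push_cast
      ring

end Pool.Agent.Results.MP_e10cd8_co.DiagonalLowerH61
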