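import Pool.Agent.E8helper61.DR.Loc
import Pool.Agent.E8helper61.DR.Main
import Pool.Agent.E8helper73.DR.Sam

/-!
# Independent sets versus transitive tournaments: a saving of `(log n) ^ (m - 2)`

Let `k(n, m)` be the least `k` such that every directed graph with `k` vertices has an independent
set of size `n` or contains a transitive tournament of size `m`. We prove

`k(n, m) ≤ 16384 ^ (m - 2) * n ^ (m - 1) / (log n) ^ (m - 2) + 1` for all `m ≥ 2` and `n ≥ 2`.

The bounds of Erdős and Rado and of Larson and Mitchell are of order `n ^ (m - 1)` for fixed `m`. So
the theorem is the analogue for directed graphs of the bound of Ajtai, Komlós and Szemerédi for the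
Ramsey numbers `R(n, m)`.

Proof. In a directed graph without transitive triangles the sets of the out-neighbours and of the
in-neighbours of a vertex are independent, so the neighbourhoods are bipartite (the graph may have
very many cyclic triangles). As in the proof of Alon's theorem on locally sparse graphs, the
expected size of a random independent set is at least `c |V| log d / d`, if the degrees are at most
`d`: for each vertex `v` we condition on the set outside the closed neighbourhood of `v` and use
Jensen's inequality for a random member of a large family of independent subsets of the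
neighbourhood. In a directed graph without independent set of size `n` and transitive tournament of
size `m` the out-degrees are less than `k(n, m - 1)` and two vertices joined by an arc have less than
`k(n, m - 2)` common out-neighbours. So there are few transitive triangles, a random set of
vertices of suitable density and the deletion of one vertex from each transitive triangle reduce the
problem to the case without transitive triangles.
-/

set_option autoImplicit false

namespace Pool.Agent.Results.MP_e10cd8_co.LogSavingH61

/-- `A` is a directed graph without loops. -/
def Loopless {V : Type} (A : V → V → Prop) : Prop := ∀ v, ¬ A v v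

/-- There is an independent set of `n` vertices. -/
def HasIndependent {V : Type} (A : V → V → Prop) (n : ℕ) : Prop :=
  ∃ S : Finset V, S.card = n ∧ ∀ u ∈ S, ∀ v ∈ S, ¬ A u v

/-- There are `m` different vertices `f 0, …, f (m - 1)` with an arc from `f i` to `f j` for all
`i < j`. -/
def HasTransitive {V : Type} (A : V → V → Prop) (m : ℕ) : Prop :=
  ∃ f : Fin m → V, Function.Injective f ∧ ∀ i j, i < j → A (f i) (f j)

/-- Every directed graph with `k` vertices has an independent set of size `n` or contains a
transitive tournament of size `m`. -/
def Arrow (k n m : ℕ) : Prop :=
  ∀ A : Fin k → Fin k → Prop, Loopless A → HasIndependent A n ∨ HasTransitive A m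

/-- `k(n, m)`, the least number of vertices with this property. -/
noncomputable def leastK (n m : ℕ) : ℕ := sInf {k | Arrow k n m}

/-- The bound for `k(n, m)`; the first part says that the set in the definition of `k(n, m)` is not
empty. -/
theorem result (n m : ℕ) (hn : 2 ≤ n) (hm : 2 ≤ m) :
    IsLeast {k | Arrow k n m} (leastK n m) ∧
      (leastK n m : ℝ) ≤
        16384 ^ (m - 2) * (n : ℝ) ^ (m - 1) / Real.log n ^ (m - 2) + 1 := by
  obtain ⟨j, rfl⟩ := Nat.exists_eq_add_of_le hm
  have hF := Pool.Agent.E8helper61.DR.forces_all Pool.Agent.E8helper61.DR.t_LOC
    Pool.Agent.E8helper61.DR.t_SAM hn j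
  rw [show 2 + j = j + 2 by omega]
  set B : ℝ := Pool.Agent.E8helper61.DR.bd n (j + 2) with hB
  have hmem : Arrow ⌈B⌉₊ n (j + 2) := by
    intro A hA
    rcases hF (Fin ⌈B⌉₊) A hA (by rw [Fintype.card_fin]; exact Nat.le_ceil _) with h | ⟨f, hf⟩
    · exact Or.inl h
    · refine Or.inr ⟨f, fun a b hab => ?_, hf⟩
      by_contra hne
      rcases lt_or_gt_of_ne hne with h | h
      · have := hf a b h
        rw [hab] at this
        exact hA _ this
      · have := hf b a h
        rw [hab] at this
        exact hA _ this
  have hne : {k | Arrow k n (j + 2)}.Nonempty := ⟨_, hmem⟩
  refine ⟨⟨Nat.sInf_mem hne, fun k hk => Nat.sInf_le hk⟩, ?_⟩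
  have h1 : (leastK n (j + 2) : ℝ) ≤ ⌈B⌉₊ := by exact_mod_cast Nat.sInf_le hmem
  have hBpos : 0 ≤ B := by
    rw [hB, Pool.Agent.E8helper61.DR.bd]
    have : 0 ≤ Real.log n := Real.log_natCast_nonneg n
    positivity
  exact h1.trans (Nat.ceil_lt_add_one hBpos).le

end Pool.Agent.Results.MP_e10cd8_co.LogSavingH61
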